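import Pool.Agent.R679.Tr4

namespace Pool.Agent.Results.MP_3a8f7c_lc.NotMinimal

open Pool.Agent.R679.Tr

/-- None of the three rational cones `T(s_<)`, `T(s_≠)`, `T(s_>)` is minimal with respect to
bounded languages of degree `k`, for any `k ≥ 3`. -/
theorem result (k : ℕ) (hk : 3 ≤ k) :
    ¬ MinimalWrt k (gen sLt) ∧ ¬ MinimalWrt k (gen sNe) ∧ ¬ MinimalWrt k (gen sGt) :=
  ⟨not_minimal_lt hk, not_minimal_ne hk, not_minimal_gt hk⟩

end Pool.Agent.Results.MP_3a8f7c_lc.NotMinimal
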